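import Pool.Agent.CGA.MainG
import Pool.Agent.CGA.SGr

/-!
Anchored isoperimetry of the infinite clusters of supercritical Bernoulli bond percolation, question
Q1 for every Cayley graph `G` of every group which contains a free semigroup on two generators, with
`ψ(G,t) ≤ C t / log t`, and every `p > p_c`.
-/

namespace Pool.Agent.Results.MP_799d92_pr.CayleyExact

open Pool.Agent.DLP Pool.Agent.CGA MeasureTheory Filter

/-- `a` and `b` generate a free semigroup (freely): different words have different values. -/
def FreeSemigroup {Γ : Type} [Group Γ] (a b : Γ) : Prop :=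
  Function.Injective (fun w : List Bool => (w.map (fun i => bif i then a else b)).prod)

/-- The critical probability of the Cayley graph for the generating set `S`. -/
noncomputable def pc {Γ : Type} [Group Γ] (S : Finset Γ) : ℝ :=
  sInf {r : ℝ | ∃ p : unitInterval, (p : ℝ) = r ∧
    0 < perc (cay S).edgeSet p {ω | ((cayG S).cluster ω 1).Infinite}}

/-- Let `Γ` be a group with a finite generating set `S`, which contains a free semigroup on two
generators, and let `G` be its Cayley graph. Suppose `ψ(G,t) ≤ C t / log t` for `t ≥ 2`. Then for every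
`p > p_c`, every vertex `v` and every `c > 0` there is `δ > 0` such that almost surely on `|K_v| = ∞`
one has `I_n(c) ≥ δ` for all large `n`. -/
theorem result {Γ : Type} [Group Γ] [DecidableEq Γ] (S : Finset Γ)
    (hS : Subgroup.closure (S : Set Γ) = ⊤) (a b : Γ) (hab : FreeSemigroup a b)
    (hψ : ∃ C : ℝ, ∀ t : ℝ, 2 ≤ t → (cayG S).psi t ≤ C * t / Real.log t)
    (p : unitInterval) (hp : pc S < p) (v : Γ) (c : ℝ) (hc : 0 < c) :
    ∃ δ : ℝ, 0 < δ ∧ ∀ᵐ ω ∂(perc (cay S).edgeSet p), ((cayG S).cluster ω v).Infinite →
      ∀ᶠ n : ℕ in atTop, δ ≤ (cayG S).In ω v c n := by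
  have hG := isCay_cayG S hS
  have hW := free_pow hab
  have hinf : Infinite Γ := infinite_of_free hW
  obtain ⟨C, hC⟩ := hψ
  exact main_ae hG hW hC hp v hc

end Pool.Agent.Results.MP_799d92_pr.CayleyExact
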