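import Pool.Agent.CGA.MainG
import Pool.Agent.CGA.SGr

/-!
Supercritical Bernoulli bond percolation on the Cayley graphs of amenable groups which contain a free
semigroup on two generators: for every `p > p_c` all finite connected subgraphs `H` of the cluster of
`v` which contain `v` and have at least `n` edges satisfy `|∂_ω H| > ε n / log n`, except with
probability `≤ C exp(-ε n / log n)`.
-/

namespace Pool.Agent.Results.MP_799d92_pr.CayleyTail

open Pool.Agent.DLP Pool.Agent.CGA MeasureTheory Filter

/-- `a` and `b` generate a free semigroup (freely): different words have different values. -/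
def FreeSemigroup {Γ : Type} [Group Γ] (a b : Γ) : Prop :=
  Function.Injective (fun w : List Bool => (w.map (fun i => bif i then a else b)).prod)

/-- The critical probability of the Cayley graph for the generating set `S`. -/
noncomputable def pc {Γ : Type} [Group Γ] (S : Finset Γ) : ℝ :=
  sInf {r : ℝ | ∃ p : unitInterval, (p : ℝ) = r ∧
    0 < perc (cay S).edgeSet p {ω | ((cayG S).cluster ω 1).Infinite}}

/-- Let `Γ` be a group with a finite generating set `S`, which contains a free semigroup on two
generators, and let `G` be its Cayley graph. Suppose that `G` is amenable (there are finite nonempty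
sets with arbitrarily small boundary). Then for every `p > p_c` and every vertex `v` there are
`ε, C > 0` such that for every `n` the probability that some finite connected subgraph `H ∋ v` of `K_v`
has `|E(H)| ≥ n` and `|∂_ω H| ≤ ε n / log (n+1)` is at most `C exp(-ε n / log (n+1))`. -/
theorem result {Γ : Type} [Group Γ] [DecidableEq Γ] (S : Finset Γ)
    (hS : Subgroup.closure (S : Set Γ) = ⊤) (a b : Γ) (hab : FreeSemigroup a b)
    (hF : ∀ ε : ℝ, 0 < ε → ∃ K : Finset Γ, K.Nonempty ∧ (((cayG S).cut K).card : ℝ) ≤ ε * K.card)
    (p : unitInterval) (hp : pc S < p) (v : Γ) :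
    ∃ ε : ℝ, 0 < ε ∧ ∃ C : ℝ, 0 < C ∧ ∀ n : ℕ,
      perc (cay S).edgeSet p {ω | ∃ (U : Finset Γ) (A : Finset (cay S).edgeSet),
          (cayG S).IsSub ω v U A ∧ n ≤ A.card ∧
            (((cayG S).bdry ω U A).card : ℝ) ≤ ε * n / Real.log (n + 1)} ≤
        ENNReal.ofReal (C * Real.exp (-(ε * n / Real.log (n + 1)))) := by
  have hG := isCay_cayG S hS
  have hW := free_pow hab
  have hinf : Infinite Γ := infinite_of_free hW
  obtain ⟨ε, hε, C, hC, h, -⟩ := main_sub hG hF hW hp v
  exact ⟨ε, hε, C, hC, h⟩

end Pool.Agent.Results.MP_799d92_pr.CayleyTail
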