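import Pool.Agent.CGA.CritInf

/-!
A criterion for anchored isoperimetry in Bernoulli bond percolation on an arbitrary locally finite
countable graph: exponential bounds for the disconnection of finite sets from infinity at the
parameter `p₀` give anchored isoperimetry with the same profile, with exponential error bounds, at
every `p > p₀`.
-/

namespace Pool.Agent.Results.MP_799d92_pr.Criterion

open Pool.Agent.DLP Pool.Agent.CGA MeasureTheory

/-- Let `0 < p₀ < p < 1`. There are `ε, C > 0`, depending only on `p₀` and `p`, such that for every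
countable locally finite graph `G`, every vertex `v` and every nondecreasing `φ`: if
`P_{p₀}(all clusters of the points of U are finite) ≤ exp(-φ(|U|))` for every finite `U ∋ v`, then for
every `n` the `P_p`-probability that some finite connected subgraph `H ∋ v` of `K_v` has at least `n`
vertices and `|∂_ω H| ≤ ε φ(n)` is at most `C exp(-ε φ(n))`. -/
theorem result {p₀ p : unitInterval} (h0 : (0 : ℝ) < p₀) (h01 : (p₀ : ℝ) < p)
    (h1 : (p : ℝ) < 1) :
    ∃ ε : ℝ, 0 < ε ∧ ∃ C : ℝ, 0 < C ∧
      ∀ (V E : Type) [DecidableEq V] [DecidableEq E] [Countable V] (G : Gr V E) (v : V)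
        (φ : ℕ → ℝ), Monotone φ →
        (∀ U : Finset V, v ∈ U → perc E p₀ {ω | ∀ x ∈ U, (G.cluster ω x).Finite} ≤
          ENNReal.ofReal (Real.exp (-φ U.card))) →
        ∀ n : ℕ, perc E p {ω | ∃ (U : Finset V) (A : Finset E), G.IsSub ω v U A ∧
            n ≤ U.card ∧ ((G.bdry ω U A).card : ℝ) ≤ ε * φ n} ≤
          ENNReal.ofReal (C * Real.exp (-(ε * φ n))) :=
  crit_inf h0 h01 h1

end Pool.Agent.Results.MP_799d92_pr.Criterion
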