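import Pool.Agent.H99.TG.PhiS
import Pool.Agent.H99.TG.Main
import Pool.Agent.H99.TG.SG
import Pool.Agent.H99.TG.SumC

/-!
Supercritical Bernoulli bond percolation on every amenable vertex-transitive graph of exponential
growth: for every `p > p_c` the finite connected subgraphs `H ∋ v` of the cluster of `v` with at least
`n` edges satisfy `|∂_ω H| > ε n / S(n)`, except with probability `≤ C exp(-ε n / S(n))`, where
`S(n) = ∑_{r ≤ log_g n} |S_r| g^{-r}`; and `S(n) ≤ B n^η` for every `η > 0`.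
-/

namespace Pool.Agent.Results.MP_799d92_pr.TransitiveGrowth

open Pool.Agent.DLP Pool.Agent.CGA Pool.Agent.H99.TG MeasureTheory Filter Topology

/-- The critical probability for the existence of an infinite open cluster. -/
noncomputable def pc {V : Type} (G : SimpleGraph V) (hf : ∀ v, (G.neighborSet v).Finite) : ℝ :=
  sInf {r : ℝ | ∃ p : unitInterval, (p : ℝ) = r ∧
    0 < perc G.edgeSet p {ω | ∃ x, ((ofSG G hf).cluster ω x).Infinite}}

/-- The number of vertices at distance `r` from `o`. -/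
noncomputable def sph {V : Type} (G : SimpleGraph V) (o : V) (r : ℕ) : ℕ :=
  {y | G.dist o y = r}.ncard

/-- The growth sum `∑_{0 ≤ r ≤ log n / log g} |S_r| g^{-r}`. -/
noncomputable def growthSum {V : Type} (G : SimpleGraph V) (o : V) (g : ℝ) (n : ℕ) : ℝ :=
  ∑ r ∈ Finset.range (⌊Real.log n / Real.log g⌋₊ + 1), (sph G o r : ℝ) / g ^ r

/-- Let `G` be an infinite, connected, locally finite, vertex-transitive graph, amenable (there are
finite nonempty sets with arbitrarily small boundary) and of exponential growth: the growth rate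
`g = lim |S_r|^{1/r}` is larger than `1`. Then the growth sum `S(n)` is `n^{o(1)}`, and for every
`p > p_c` there are `ε, C > 0` such that for every `n ≥ 1` the probability that some finite connected
subgraph `H ∋ v` of `K_v` has `|E(H)| ≥ n` and `|∂_ω H| ≤ ε n / S(n)` is at most
`C exp(-ε n / S(n))`. -/
theorem result {V : Type} [DecidableEq V] [Infinite V] (G : SimpleGraph V) (hc : G.Connected)
    (hf : ∀ v, (G.neighborSet v).Finite) (ht : ∀ x y : V, ∃ f : G ≃g G, f x = y)
    (hF : ∀ ε : ℝ, 0 < ε → ∃ K : Finset V, K.Nonempty ∧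
      (((ofSG G hf).cut K).card : ℝ) ≤ ε * K.card)
    (v : V) {g : ℝ} (hg : 1 < g)
    (hlim : Tendsto (fun r : ℕ => (sph G v r : ℝ) ^ ((1 : ℝ) / r)) atTop (𝓝 g)) :
    (∀ η : ℝ, 0 < η → ∃ B : ℝ, ∀ n : ℕ, 1 ≤ n → growthSum G v g n ≤ B * (n : ℝ) ^ η) ∧
    ∀ p : unitInterval, pc G hf < p →
      ∃ ε : ℝ, 0 < ε ∧ ∃ C : ℝ, 0 < C ∧ ∀ n : ℕ, 1 ≤ n →
        perc G.edgeSet p {ω | ∃ (U : Finset V) (A : Finset G.edgeSet),
            (ofSG G hf).IsSub ω v U A ∧ n ≤ A.card ∧
              (((ofSG G hf).bdry ω U A).card : ℝ) ≤ ε * (n / growthSum G v g n)} ≤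
          ENNReal.ofReal (C * Real.exp (-(ε * (n / growthSum G v g n)))) := by
  refine ⟨fun η hη => Sg_sub hg hlim hη, fun p hp => ?_⟩
  obtain ⟨D, hD⟩ := exists_geo G hc hf ht
  have hsph : ∀ r, (D.S v r).card = sph G v r := by
    intro r
    unfold sph
    rw [← Set.ncard_coe_finset]
    congr 1
    ext y
    simp only [Finset.mem_coe, Set.mem_setOf_eq]
    rw [mem_S, hD]
  have hs : ∀ x r, (D.S x r).card = sph G v r := fun x r => by rw [card_S D x v r, hsph]
  have h0 : sph G v 0 = 1 := by rw [← hsph 0]; exact s_zero D v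
  have hsub : ∀ m n, sph G v (m + n) ≤ sph G v m * sph G v n := by
    intro m n
    rw [← hsph, ← hsph, ← hsph]
    exact card_S_add D v m n
  have hge := growth_le h0 hsub hg hlim
  obtain ⟨A, hA1, hA⟩ := growth_up hg hlim
  have hgs : ∀ n, growthSum G v g n = Sg (sph G v) g n := fun n => rfl
  have hSpos : ∀ n, 0 < Sg (sph G v) g n := fun n => by
    have := Sg_ge_one hg h0 n
    linarith
  have hmain := main_T D hF (φ := fun n => (n : ℝ) / Sg (sph G v) g n)
    (fun n hn => div_pos (by exact_mod_cast hn) (hSpos n))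
    (fun q hq => quasi hg h0 hsub hge hA1 hA q hq)
    (fun p c h0p h1p hc0 hcc => phi_S D hs hg hge h0p h1p hc0 hcc) (p := p) hp v
  obtain ⟨ε, hε, C, hC, h⟩ := hmain
  refine ⟨ε, hε, C, hC, fun n hn => ?_⟩
  rw [hgs]
  exact h n hn

end Pool.Agent.Results.MP_799d92_pr.TransitiveGrowth
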